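import Pool.Agent.W458.MF.XStm
import Pool.Agent.W458.MF.Geo7

/-!
# The external squares of the further eigenvectors
-/

open CategoryTheory AlgebraicGeometry Polynomial

universe u v w

namespace Pool.Agent.W64.MF

open Pool.Agent.H914 Pool.Agent.W534 Pool.Agent.W521.Frob VarClass Obj WeilCohomology
  Pool.Agent.H281R3.HT Pool.Agent.W536.RR Pool.Agent.W458.MF

section Lin

variable {K : Type*} [Field K] {V V' : Type*} [AddCommGroup V] [Module K V] [AddCommGroup V']
  [Module K V']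

/-- A functional which is an eigenvector of the transpose vanishes on the generalised eigenspaces
for the other eigenvalues. -/
lemma tr_gen {T : Module.End K V} {τ : V →ₗ[K] K} {Q ν : K} (h : ∀ z, τ (T z) = Q * τ z)
    (hν : ν ≠ Q) {z : V} (hz : z ∈ T.maxGenEigenspace ν) : τ z = 0 := by
  rw [Module.End.mem_maxGenEigenspace] at hz
  obtain ⟨n, hn⟩ := hz
  have h1 : ∀ (n : ℕ) (z : V), τ (((T - ν • (1 : Module.End K V)) ^ n) z) = (Q - ν) ^ n * τ z := by
    intro n
    induction n with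
    | zero => intro z; simp
    | succ n ih =>
      intro z
      rw [pow_succ, Module.End.mul_apply, ih, LinearMap.sub_apply, LinearMap.smul_apply,
        Module.End.one_apply, map_sub, map_smul, h, smul_eq_mul, pow_succ]
      ring
  have h2 := h1 n z
  rw [hn, map_zero] at h2
  rcases mul_eq_zero.1 h2.symm with h3 | h3
  · exact absurd h3 (pow_ne_zero _ (sub_ne_zero.2 (Ne.symm hν)))
  · exact h3

/-- Generalised eigenvectors of a restriction. -/
lemma gen_of_inj {T : Module.End K V} {T' : Module.End K V'} {θ : V →ₗ[K] V'} {ν : K}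
    (hinj : Function.Injective θ) (h : ∀ x, T' (θ x) = θ (T x)) {y : V}
    (hy : θ y ∈ T'.maxGenEigenspace ν) : y ∈ T.maxGenEigenspace ν := by
  rw [Module.End.mem_maxGenEigenspace] at hy ⊢
  obtain ⟨n, hn⟩ := hy
  refine ⟨n, hinj ?_⟩
  have h1 : ∀ (n : ℕ) (x : V), ((T' - ν • (1 : Module.End K V')) ^ n) (θ x) =
      θ (((T - ν • (1 : Module.End K V)) ^ n) x) := by
    intro n
    induction n with
    | zero => intro x; simp
    | succ n ih =>
      intro x
      have h2 : (T' - ν • (1 : Module.End K V')) (θ x) =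
          θ ((T - ν • (1 : Module.End K V)) x) := by
        rw [LinearMap.sub_apply, LinearMap.sub_apply, LinearMap.smul_apply, LinearMap.smul_apply,
          Module.End.one_apply, Module.End.one_apply, h, map_sub, map_smul]
      rw [pow_succ, Module.End.mul_apply, h2, ih, pow_succ (T - ν • (1 : Module.End K V)),
        Module.End.mul_apply]
  rw [← h1, hn, map_zero]

end Lin

section Geo

variable {k : Type u} [Field k] {𝒱 : VarClass k} {ops : CycleOps 𝒱}
  {W : WeilCohomology.{u, v} ops} {Y : 𝒱.Obj} {p : ℕ} {Φ : FrobSystem W p}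

/-- Every class is a sum of homogeneous generalised eigenvectors. -/
lemma hom_gen_span [IsAlgClosed W.K] (s : ℕ) (y : W.H Y) : y ∈ Submodule.span W.K
    {w | ∃ i, w ∈ W.gr Y i ∧ ∃ ν : W.K, w ∈ Module.End.maxGenEigenspace (frob Φ Y s) ν} := by
  refine gr_induction (W.isInternal Y) (p := fun y => y ∈ Submodule.span W.K
    {w | ∃ i, w ∈ W.gr Y i ∧ ∃ ν : W.K, w ∈ Module.End.maxGenEigenspace (frob Φ Y s) ν}) ?_ ?_ y
  · intro i a ha
    have h1 := Submodule.apply_mem_span_image_of_mem_span (W.gr Y i).subtype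
      (span_gen_top (frobOn Φ Y s i) (⟨a, ha⟩ : W.gr Y i))
    refine Submodule.span_mono ?_ h1
    rintro _ ⟨w, ⟨ν, hν⟩, rfl⟩
    refine ⟨i, w.2, 1 * ν, ?_⟩
    refine gen_map (θ := (W.gr Y i).subtype) (c := 1) ?_ hν
    intro x
    rw [one_smul]
    rfl
  · intro a b ha hb
    exact Submodule.add_mem _ ha hb

/-- The degree of a homogeneous generalised eigenvector. -/
lemma hom_gen_deg {σ : W.K →+* ℂ} (hp : 1 < p) (hRH : RiemannHyp Φ σ Y) {s : ℕ} (hs : 0 < s)
    {i n : ℕ} {w : W.H Y} (hw : w ∈ W.gr Y i) (hw0 : w ≠ 0)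
    (hg : w ∈ Module.End.maxGenEigenspace (frob Φ Y s) ((card Φ Y s : W.K) ^ n)) : i = 2 * n := by
  have h1 : (⟨w, hw⟩ : W.gr Y i) ∈
      Module.End.maxGenEigenspace (frobOn Φ Y s i) ((card Φ Y s : W.K) ^ n) :=
    gen_of_inj (θ := (W.gr Y i).subtype) Subtype.val_injective (fun _ => rfl) hg
  have h2 : (⟨w, hw⟩ : W.gr Y i) ≠ 0 := fun h => hw0 (congrArg Subtype.val h)
  have h3 := (Module.End.hasEigenvalue_iff_isRoot_charpoly _ _).1 (hasEigenvalue_of_gen h1 h2)
  have h4 := hRH s hs i (σ ((card Φ Y s : W.K) ^ n)) (by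
    rw [frobPoly_eq]
    exact h3.map)
  rw [map_pow, map_natCast, norm_pow, Complex.norm_natCast, ← pow_mul] at h4
  have hone : 1 < card Φ Y s := Nat.one_lt_pow (Nat.mul_pos (Φ.e_pos Y) hs).ne' hp
  have h5 : card Φ Y s ^ (n * 2) = card Φ Y s ^ i := by exact_mod_cast h4
  have h6 := Nat.pow_right_injective hone h5
  omega

lemma spanCycles_le_algSpan (n : ℕ) : spanCycles W Y n ≤ algSpan W Y := by
  rw [spanCycles, Submodule.span_le]
  rintro c ⟨j, -, z, hz, rfl⟩
  exact cl_mem_algSpan hz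

/-- The pull-backs which are generalised eigenvectors are algebraic. -/
lemma alg_of_gen [IsAlgClosed W.K] {σ : W.K →+* ℂ} {P : Piece W Y} {m n : ℕ} (hp : 1 < p)
    (hfrob : P.IsFrobenius Φ m) (hRH : RiemannHyp Φ σ Y)
    (hST : ∀ j ≤ Y.dim, SemisimpleTateIn Φ Y j) {ρ : W.K}
    (hρ : ∀ t, 2 ∣ t → ρ ^ t = ((p : W.K) ^ (n * m)) ^ t) {y : W.H Y}
    (hy : W.map P.mor y ∈ Module.End.maxGenEigenspace (W.map P.fr).toLinearMap ρ) :
    W.map P.mor y ∈ algSpan W P.obj := by
  obtain ⟨a, b, ha, hb, hab, h⟩ := frob_comm Φ P.mor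
  obtain ⟨a₀, b₀, ha₀, hb₀, hlev⟩ := G.exists_glevel hfrob
  have hL := hlev (2 * a) (by omega)
  have hcomm : ∀ y : W.H Y, frob Φ P.obj (b₀ * (2 * a)) (W.map P.mor y) =
      W.map P.mor (frob Φ Y (b * (2 * b₀)) y) := by
    intro y
    have e : b₀ * (2 * a) = a * (2 * b₀) := by ring
    rw [e]
    exact h (2 * b₀) y
  have hcard : card Φ Y (b * (2 * b₀)) = card Φ P.obj (b₀ * (2 * a)) := by
    apply card_eq_of
    calc b * (2 * b₀) * Φ.e Y = (b * Φ.e Y) * (2 * b₀) := by ring
      _ = b₀ * (2 * a) * Φ.e P.obj := by rw [← hab]; ring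
  have hT : (W.map P.fr).toLinearMap ^ (a₀ * (2 * a)) = frob Φ P.obj (b₀ * (2 * a)) := by
    apply LinearMap.ext
    intro x
    rw [Module.End.pow_apply, hL.2.2.2]
    rfl
  have h1 : W.map P.mor y ∈ Module.End.maxGenEigenspace (frob Φ P.obj (b₀ * (2 * a)))
      ((card Φ Y (b * (2 * b₀)) : W.K) ^ n) := by
    have h2 := gen_mono _ _ (a₀ * (2 * a)) hy
    rw [hT, hρ _ ⟨a₀ * a, by ring⟩, hL.card n] at h2
    rw [hcard]
    exact h2
  set M : Set (W.H P.obj) := {z | ∃ (w : W.H Y) (i : ℕ) (ν : W.K), w ∈ W.gr Y i ∧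
    w ∈ Module.End.maxGenEigenspace (frob Φ Y (b * (2 * b₀))) ν ∧ z = W.map P.mor w} with hM
  have hMg : ∀ (w : W.H Y) (ν : W.K),
      w ∈ Module.End.maxGenEigenspace (frob Φ Y (b * (2 * b₀))) ν →
      W.map P.mor w ∈ Module.End.maxGenEigenspace (frob Φ P.obj (b₀ * (2 * a))) ν := by
    intro w ν hw
    have h2 := gen_map (T' := frob Φ P.obj (b₀ * (2 * a))) (θ := (W.map P.mor).toLinearMap)
      (c := 1) (by
        intro y
        rw [one_smul]
        exact hcomm y) hw
    rw [one_mul] at h2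
    exact h2
  have hMgen : ∀ z ∈ M, ∃ ν : W.K,
      z ∈ Module.End.maxGenEigenspace (frob Φ P.obj (b₀ * (2 * a))) ν := by
    rintro z ⟨w, i, ν, -, hw, rfl⟩
    exact ⟨ν, hMg w ν hw⟩
  have hspan : W.map P.mor y ∈ Submodule.span W.K M := by
    have h2 := Submodule.apply_mem_span_image_of_mem_span (W.map P.mor).toLinearMap
      (hom_gen_span (Φ := Φ) (b * (2 * b₀)) y)
    refine Submodule.span_mono ?_ h2
    rintro _ ⟨w, ⟨i, hw, ν, hν⟩, rfl⟩
    exact ⟨w, i, ν, hw, hν, rfl⟩
  have h3 := mem_span_gen hMgen hspan h1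
  have h4 : Submodule.span W.K {v | v ∈ M ∧ v ∈ Module.End.maxGenEigenspace
      (frob Φ P.obj (b₀ * (2 * a))) ((card Φ Y (b * (2 * b₀)) : W.K) ^ n)} ≤
      algSpan W P.obj := by
    rw [Submodule.span_le]
    rintro _ ⟨⟨w, i, ν, hwi, hw, rfl⟩, hz⟩
    by_cases h0 : W.map P.mor w = 0
    · rw [h0]
      exact Submodule.zero_mem _
    have hw0 : w ≠ 0 := by
      rintro rfl
      exact h0 (map_zero _)
    have h5 := eq_of_mem_gen (hMg w ν hw) hz h0
    subst h5
    have h6 := hom_gen_deg hp hRH (Nat.mul_pos hb (by omega)) hwi hw0 hw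
    subst h6
    refine algSpan_map _ ?_
    by_cases hn : n ≤ Y.dim
    · exact spanCycles_le_algSpan n
        (hST n hn (b * (2 * b₀)) (Nat.mul_pos hb (by omega)) ⟨hw, hwi⟩)
    · rw [W.gr_eq_bot Y (2 * n) (by omega)] at hwi
      rw [(Submodule.mem_bot _).1 hwi]
      exact Submodule.zero_mem _
  exact h4 h3

end Geo

/-- The external squares of the further eigenvectors are algebraic. -/
theorem xsq (hX : St_XPAIR.{u, v}) : St_XSQ.{u, v} := by
  intro k _ 𝒱 ops W _ Y p Φ σ P m n hp hm hfrob hsub hgen hpush hdim hdeg hRH hST hspan huniq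
    hlam x hx
  obtain ⟨hxs, n', hn', hxT⟩ := hx
  obtain rfl : n' = n := by omega
  by_cases hx0 : x = 0
  · rw [hx0, H281R3.HT.ext, map_zero, zero_mul]
    exact Submodule.zero_mem _
  have hp0 : (p : W.K) ≠ 0 := Nat.cast_ne_zero.2 (by omega)
  obtain ⟨ρ, hρT, hρ2, hρt⟩ : ∃ ρ : W.K, W.map P.fr x = ρ • x ∧
      ρ ^ 2 = (p : W.K) ^ (P.obj.dim * m) ∧
      ∀ t, 2 ∣ t → ρ ^ t = ((p : W.K) ^ (n' * m)) ^ t := by
    have h1 : ((p : W.K) ^ (n' * m)) ^ 2 = (p : W.K) ^ (P.obj.dim * m) := by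
      rw [← pow_mul, hdim]
      congr 1
      ring
    rcases hxT with h | h
    · exact ⟨_, h, h1, fun t _ => rfl⟩
    · exact ⟨_, h, by rw [neg_sq, h1], fun t ht => Even.neg_pow (even_iff_two_dvd.2 ht) _⟩
  have hQ0 : (p : W.K) ^ (P.obj.dim * m) ≠ 0 := pow_ne_zero _ hp0
  have hρ0 : ρ ≠ 0 := by
    rintro rfl
    rw [zero_pow two_ne_zero] at hρ2
    exact hQ0 hρ2.symm
  have hcomm : ∀ w ∈ P.sub, ∀ b : W.H P.obj, w * b = b * w := by
    intro w hw b
    have h1 := hsub hw
    rw [hdim] at h1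
    exact W.even_comm h1 b
  have hort : ∀ w ∈ P.sub, ∀ y : W.H Y, W.tr P.obj (w * W.map P.mor y) = 0 := by
    intro w hw y
    rw [← W.tr_push, hpush w hw, zero_mul, map_zero]
  have hxg : x ∈ Module.End.maxGenEigenspace (W.map P.fr).toLinearMap ρ := eig_mem_gen hρT
  -- orthogonality
  have key : ∀ z ∈ Module.End.maxGenEigenspace (W.map P.fr).toLinearMap ρ,
      W.tr P.obj (z * x) = 0 → ∀ w ∈ P.sub, W.tr P.obj (z * w) = 0 := by
    intro z hz hzx w hw
    have hgm : ∀ (v : W.H P.obj) (μ : W.K), W.map P.fr v = μ • v →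
        ρ * μ ≠ (p : W.K) ^ (P.obj.dim * m) → W.tr P.obj (z * v) = 0 := by
      intro v μ hv hne
      have h1 : LinearMap.mul W.K (W.H P.obj) z v ∈
          Module.End.maxGenEigenspace (W.map P.fr).toLinearMap (ρ * μ) :=
        gen_mul (LinearMap.mul W.K (W.H P.obj)) (fun a b => map_mul (W.map P.fr) a b) hz
          (eig_mem_gen (T := (W.map P.fr).toLinearMap) hv)
      exact tr_gen (τ := W.tr P.obj) hdeg hne h1
    have hw' := hspan w hw
    clear hw
    induction hw' using Submodule.span_induction with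
    | mem v hv =>
      rcases hv with ⟨lam, hv⟩ | hv
      · apply hgm v lam hv.eig
        intro h1
        apply hlam lam v hv
        have h2 : lam = ρ := by
          rw [← hρ2, pow_two] at h1
          exact mul_left_cancel₀ hρ0 h1
        rw [h2]
        exact hρ2
      · obtain ⟨hvs, n'', -, hvT⟩ := hv
        obtain ⟨μ, hμ⟩ : ∃ μ : W.K, W.map P.fr v = μ • v := by
          rcases hvT with h | h
          · exact ⟨_, h⟩
          · exact ⟨_, h⟩
        by_cases h1 : ρ * μ = (p : W.K) ^ (P.obj.dim * m)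
        · have h2 : μ = ρ := by
            rw [← hρ2, pow_two] at h1
            exact mul_left_cancel₀ hρ0 h1
          rw [h2] at hμ
          obtain ⟨c, rfl⟩ := huniq ρ x v hxs hvs hρT hμ hx0
          rw [mul_smul_comm, map_smul, hzx, smul_zero]
        · exact hgm v μ hμ h1
    | zero => rw [mul_zero, map_zero]
    | add a b _ _ ha hb => rw [mul_add, map_add, ha, hb, add_zero]
    | smul c a _ ha => rw [mul_smul_comm, map_smul, ha, smul_zero]
  -- the trace of the square
  have hxx : W.tr P.obj (x * x) ≠ 0 := by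
    intro h1
    apply hx0
    apply W.nondeg
    intro b
    obtain ⟨y, hy⟩ := hgen b
    have h2 : x * b = x * W.map P.mor y + x * (b - W.map P.mor y) := by
      rw [← mul_add, add_sub_cancel]
    rw [h2, map_add, hort x hxs, key x hxg h1 _ hy, add_zero]
  refine hX W P.obj P.fr (p ^ (P.obj.dim * m)) ρ x
    (algSpan W P.obj ⊓ LinearMap.range (W.map P.mor).toLinearMap)
    (pow_pos (by omega) _) ?_ ?_ hρT inf_le_left ?_ ?_ hxx ?_
  · intro z
    rw [hdeg z, Nat.cast_pow]
  · rw [hρ2, Nat.cast_pow]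
  · rintro b ⟨hb, y, rfl⟩
    rw [algSpan_comm hb]
    exact hort x hxs y
  · rintro b ⟨hb, -⟩
    exact algSpan_comm hb x
  · intro z hz
    set c : W.K := W.tr P.obj (z * x) / W.tr P.obj (x * x) with hc
    have hz1 : z - c • x ∈ Module.End.maxGenEigenspace (W.map P.fr).toLinearMap ρ :=
      Submodule.sub_mem _ hz (Submodule.smul_mem _ _ hxg)
    have hz2 : W.tr P.obj ((z - c • x) * x) = 0 := by
      rw [sub_mul, map_sub, smul_mul_assoc, map_smul, smul_eq_mul, hc, div_mul_cancel₀ _ hxx,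
        sub_self]
    have hz3 := key _ hz1 hz2
    obtain ⟨y, hy⟩ := hgen (z - c • x)
    have hw0 : z - c • x - W.map P.mor y = 0 := by
      apply W.nondeg
      intro b
      obtain ⟨y', hy'⟩ := hgen b
      have h2 : (z - c • x - W.map P.mor y) * b =
          (z - c • x - W.map P.mor y) * W.map P.mor y' +
            ((z - c • x) * (b - W.map P.mor y') - W.map P.mor y * (b - W.map P.mor y')) := by
        rw [← sub_mul, ← mul_add, add_sub_cancel]
      rw [h2, map_add, map_sub, hort _ hy, hz3 _ hy', ← hcomm _ hy', hort _ hy', sub_zero,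
        add_zero]
    have hz4 : z - c • x = W.map P.mor y := sub_eq_zero.1 hw0
    refine ⟨W.map P.mor y, ⟨?_, y, rfl⟩, c, ?_⟩
    · rw [hz4] at hz1
      exact alg_of_gen hp hfrob hRH hST hρt hz1
    · rw [← hz4, sub_add_cancel]

end Pool.Agent.W64.MF
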